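import Pool.Agent.HUK.Stmts

/-!
# Squad HUK, row DGU (helper46): one exceptional set for all degrees
-/

set_option autoImplicit false

namespace Pool.Agent.HUK.H46

open Polynomial NumberField Matrix Pool.Agent.MTL Pool.Agent.MTL.H34 Pool.Agent.Helper78_MT
  Pool.Agent.HIK Pool.Agent.HIP Pool.Agent.MTPN Pool.Agent.MTN Pool.Agent.HUK

theorem deg_add (x : QB) (κ : ℕ) (hx : IsIntegral ℚ x) :
    (minpoly ℚ (x + (κ : QB))).natDegree = (minpoly ℚ x).natDegree := by
  have h1 : (κ : QB) = algebraMap ℚ QB (κ : ℚ) := by rw [map_natCast]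
  rw [h1, minpoly.add_algebraMap x (κ : ℚ), natDegree_comp, natDegree_X_sub_C, mul_one]

theorem deg_le (x : QB) (p : ℤ[X]) (hp : p.Monic) (h : aeval x p = 0) :
    IsIntegral ℚ x ∧ (minpoly ℚ x).natDegree ≤ p.natDegree := by
  have h1 : (p.map (Int.castRingHom ℚ)).Monic := hp.map _
  have h2 : aeval x (p.map (Int.castRingHom ℚ)) = 0 := by
    rw [← h]
    exact aeval_map_algebraMap ℚ x p
  refine ⟨⟨p.map (Int.castRingHom ℚ), h1, h2⟩, ?_⟩
  have h3 := natDegree_le_of_dvd (minpoly.dvd ℚ x h2) h1.ne_zero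
  rwa [hp.natDegree_map] at h3

theorem dgu : DguStmt := by
  intro δ S hS M A
  choose C hC using fun m => hS m M A
  refine ⟨∑ m ∈ Finset.range (M + 1), |C m|, ?_⟩
  intro X hX x hx
  obtain ⟨p, hp, hd, -, hz⟩ := id hx
  obtain ⟨hi, hle⟩ := deg_le x p hp hz
  set m := (minpoly ℚ x).natDegree with hm
  have hset : {κ : ℕ // κ < X ∧ x + κ ∈ {α : QB | α ∈ S (minpoly ℚ α).natDegree}} =
      {κ : ℕ // κ < X ∧ x + κ ∈ S m} := by
    congr 1
    funext κ
    simp only [Set.mem_ofPred_eq, deg_add x κ hi, hm]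
  rw [hset]
  refine (hC m X hX x hx).trans ?_
  have h1 : C m ≤ ∑ m ∈ Finset.range (M + 1), |C m| := by
    refine (le_abs_self _).trans ?_
    exact Finset.single_le_sum (f := fun m => |C m|) (fun _ _ => abs_nonneg _)
      (Finset.mem_range.2 (by omega))
  exact mul_le_mul_of_nonneg_right h1 (by positivity)

end Pool.Agent.HUK.H46
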